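import Mathlib
import Pool.Agent.Helper11.PC.Defs

/-! # CHI: characters of the abelianization (project PC) -/

set_option autoImplicit false

namespace Pool.Agent.Helper8.PC

open Pool.Agent.Helper11.PC

universe u

theorem chi {G : Type u} [Group G] {r : ℕ} (a : Fin r → G) (h : HomIndep a) (l : Fin r) :
    ∃ χ : G → ℚ, (∀ g h, χ (g * h) = χ g + χ h) ∧ ∀ j, χ (a j) = if j = l then 1 else 0 := by
  classical
  have hinj : Function.Injective (Finsupp.linearCombination ℤ
      (fun j => (Additive.ofMul (Abelianization.of (a j)) : Additive (Abelianization G)))) := h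
  let g0 : (Fin r →₀ ℤ) →+ ℚ := (Int.castAddHom ℚ).comp (Finsupp.applyAddHom l)
  obtain ⟨φ, hφ⟩ := (Module.Baer.of_divisible ℚ).extension_property_addMonoidHom
    (Finsupp.linearCombination ℤ
      (fun j => (Additive.ofMul (Abelianization.of (a j)) :
        Additive (Abelianization G)))).toAddMonoidHom hinj g0
  refine ⟨fun g => φ (Additive.ofMul (Abelianization.of g)), ?_, ?_⟩
  · intro g g'
    dsimp only
    rw [map_mul, ofMul_mul, map_add]
  · intro j
    have h1 := DFunLike.congr_fun hφ (Finsupp.single j 1)
    have h2 : (Finsupp.linearCombination ℤ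
      (fun j => (Additive.ofMul (Abelianization.of (a j)) :
        Additive (Abelianization G)))).toAddMonoidHom (Finsupp.single j 1) =
        Additive.ofMul (Abelianization.of (a j)) := by
      show Finsupp.linearCombination ℤ _ (Finsupp.single j 1) = _
      rw [Finsupp.linearCombination_single, one_smul]
    rw [AddMonoidHom.comp_apply, h2] at h1
    dsimp only
    rw [h1]
    show (((Finsupp.single j (1 : ℤ)) l : ℤ) : ℚ) = _
    rw [Finsupp.single_apply]
    split_ifs <;> simp

end Pool.Agent.Helper8.PC
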